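import Pool.Agent.helper55.VQ.SpecD
import Pool.Agent.helper44.VQ.VQA

/-!
# MP_07c750, project VQ, row EDW (the energy window)

Eigenfunctions have almost all their mass in the window `|E| ≤ R^(-1/4)`: the energy localisation VEL bounds the second moment in `E` by
`17 R^(8 z - 1)` times the norm, and outside the window `E^2` is at least `R^(-1/2)`.
-/

set_option autoImplicit false

open scoped MatrixGroups ContDiff Topology UpperHalfPlane ComplexConjugate ENNReal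
open UpperHalfPlane MeasureTheory Filter Set

namespace Pool.Agent.VQ

open Pool.Agent.RS
open Pool.Agent.RPQ (CEig mean VV IsOp)

noncomputable section

/-- the norm as a lower integral -/
theorem EDW_nP {F : Set ℍ} {c R : ℝ} {v : SL(2, ℝ) × ℝ → ℂ} (hv : Measurable v) :
    nP F c R v = (∫⁻ g in dG F, (∫⁻ E in Wi c R, ‖v (g, E)‖ₑ ^ 2) ∂mG).toReal := by
  have : SigmaFinite mG := RS.A_GMG.2.2.1
  rw [nP, integral_eq_lintegral_of_nonneg_ae (Eventually.of_forall fun p => by positivity)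
    (hv.norm.pow_const 2).aestronglyMeasurable]
  congr 1
  have h1 : ∀ p, ENNReal.ofReal (‖v p‖ ^ 2) = ‖v p‖ₑ ^ 2 := fun p => by
    rw [ENNReal.ofReal_pow (norm_nonneg _), ofReal_norm]
  simp only [h1]
  rw [PW, mP, ← Measure.prod_restrict, lintegral_prod]
  exact (hv.enorm.pow_const 2).aemeasurable

/-- splitting of the energies -/
theorem EDW_split {F : Set ℍ} {U : ℍ → ℝ} {c R : ℝ} {v : SL(2, ℝ) × ℝ → ℂ} (hv : Measurable v)
    (hU : ∀ (g : SL(2, ℝ)), Wi c R ⊆ {E : ℝ | -(U (g • I) / 2) < E}) :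
    ∫⁻ g in dG F, (∫⁻ E in {E : ℝ | -(U (g • I) / 2) < E}, ‖v (g, E)‖ₑ ^ 2) ∂mG =
      ∫⁻ g in dG F, (∫⁻ E in Wi c R, ‖v (g, E)‖ₑ ^ 2) ∂mG +
      ∫⁻ g in dG F, (∫⁻ E in {E : ℝ | -(U (g • I) / 2) < E} \ Wi c R, ‖v (g, E)‖ₑ ^ 2) ∂mG := by
  have hm : Measurable (fun g : SL(2, ℝ) => ∫⁻ E in Wi c R, ‖v (g, E)‖ₑ ^ 2) :=
    Measurable.lintegral_prod_right' (f := fun p : SL(2, ℝ) × ℝ => ‖v p‖ₑ ^ 2) (hv.enorm.pow_const 2)
  have hW : MeasurableSet (Wi c R) := measurableSet_Icc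
  rw [← lintegral_add_left hm]
  congr 1
  funext g
  rw [← lintegral_inter_add_sdiff _ _ hW, inter_eq_self_of_subset_right (hU g)]

/-- the mass outside the window is bounded by the second moment of the energy -/
theorem EDW_out {F : Set ℍ} {U : ℍ → ℝ} {c R a : ℝ} (w : SL(2, ℝ) → ℝ → ENNReal)
    (ha : ∀ E : ℝ, E ∉ Wi c R → a ≤ (E - 0) ^ 2) :
    ENNReal.ofReal a * ∫⁻ g in dG F, (∫⁻ E in {E : ℝ | -(U (g • I) / 2) < E} \ Wi c R, w g E) ∂mG ≤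
      ∫⁻ g in dG F, (∫⁻ E in {E : ℝ | -(U (g • I) / 2) < E}, ENNReal.ofReal ((E - 0) ^ 2) * w g E) ∂mG := by
  rw [← lintegral_const_mul' _ _ ENNReal.ofReal_ne_top]
  refine lintegral_mono fun g => ?_
  change ENNReal.ofReal a * (∫⁻ E in {E : ℝ | -(U (g • I) / 2) < E} \ Wi c R, w g E) ≤
    ∫⁻ E in {E : ℝ | -(U (g • I) / 2) < E}, ENNReal.ofReal ((E - 0) ^ 2) * w g E
  rw [← lintegral_const_mul' _ _ ENNReal.ofReal_ne_top]
  have hS : MeasurableSet ({E : ℝ | -(U (g • I) / 2) < E} \ Wi c R) :=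
    (measurableSet_lt measurable_const measurable_id).diff measurableSet_Icc
  refine le_trans (setLIntegral_mono' hS fun E hE => ?_) (lintegral_mono_set sdiff_subset)
  exact mul_le_mul_left (ENNReal.ofReal_le_ofReal (ha E hE.2)) _

/-- the numbers -/
theorem EDW_num {R z : ℝ} (hR : 17 ^ 8 ≤ R) (hz : z ≤ 1 / 64) :
    R ^ (1 / 2 : ℝ) * (R ^ (8 * z) * (17 * R ^ (-1 : ℝ))) ≤ R ^ (-(1 / 4) : ℝ) := by
  have h1 : (1 : ℝ) ≤ R := le_trans (by norm_num) hR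
  have h0 : 0 < R := by linarith
  have e1 : (17 : ℝ) ≤ R ^ (1 / 8 : ℝ) := by
    have e2 : (17 : ℝ) = ((17 : ℝ) ^ 8) ^ (1 / 8 : ℝ) := by
      rw [← Real.rpow_natCast, ← Real.rpow_mul (by norm_num)]
      norm_num
    rw [e2]
    exact Real.rpow_le_rpow (by norm_num) hR (by norm_num)
  have e3 : R ^ (1 / 2 : ℝ) * (R ^ (8 * z) * (17 * R ^ (-1 : ℝ))) = 17 * R ^ (1 / 2 + 8 * z + -1) := by
    rw [Real.rpow_add h0, Real.rpow_add h0]
    ring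
  have e4 : R ^ (1 / 2 + 8 * z + -1) ≤ R ^ (-(3 / 8) : ℝ) := Real.rpow_le_rpow_of_exponent_le h1 (by linarith)
  have e5 : R ^ (1 / 8 : ℝ) * R ^ (-(3 / 8) : ℝ) = R ^ (-(1 / 4) : ℝ) := by
    rw [← Real.rpow_add h0]
    norm_num
  rw [e3, ← e5]
  have e6 : 0 < R ^ (-(3 / 8) : ℝ) := Real.rpow_pos_of_pos h0 _
  have e7 : 0 < R ^ (1 / 2 + 8 * z + -1) := Real.rpow_pos_of_pos h0 _
  nlinarith

/-- outside the window the energy is large -/
theorem EDW_E {R c E : ℝ} (hR : 0 < R) (hc : 1 ≤ c) (hE : E ∉ Wi c R) : R ^ (-(1 / 2) : ℝ) ≤ (E - 0) ^ 2 := by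
  have h1 : R ^ (-(1 / 2) : ℝ) = (R ^ (-(1 / 4) : ℝ)) ^ 2 := by
    rw [← Real.rpow_natCast, ← Real.rpow_mul hR.le]
    norm_num
  have h2 : 0 < R ^ (-(1 / 4) : ℝ) := Real.rpow_pos_of_pos hR _
  have h3 : R ^ (-(1 / 4) : ℝ) ≤ |E| := by
    by_contra h
    push Not at h
    apply hE
    have h4 : R ^ (-(1 / 4) : ℝ) ≤ c * R ^ (-(1 / 4) : ℝ) := by nlinarith
    have h5 := abs_lt.1 h
    exact ⟨by linarith, by linarith⟩
  rw [h1, sub_zero, ← sq_abs E]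
  exact pow_le_pow_left₀ h2.le h3 2

/-- the second moment bound with the operator `Hop` -/
theorem EDW_hop {F : Set ℍ} (hF : MeasurableSet F) {U : ℍ → ℝ} {R : ℝ} {φ : ℍ → ℂ} (hR : 1 ≤ R) (hc : Continuous φ)
    (hs : ∃ b : ℝ, ∀ z ∈ F, φ z ≠ 0 → dist z I ≤ b) (hH : ∀ z, ‖Hop U R φ z‖ ≤ 2 * R ^ (1 / 100 : ℝ) * ‖φ z‖) :
    nn F (fun z => QU.lap φ z - ((R ^ 2 * (U z + 2 * 0) : ℝ) : ℂ) * φ z) ≤ 16 * R ^ (2 + 1 / 50 : ℝ) * nn F φ := by
  have h0 : 0 < R := by linarith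
  obtain ⟨b, hb⟩ := hs
  have i1 : IntegrableOn (fun z => ‖φ z‖ ^ 2) F := by
    apply VQA_int hF (hc.norm.pow 2)
    refine ⟨b, fun z hz h0 => hb z hz fun h3 => h0 ?_⟩
    simp [h3]
  have e1 : 16 * R ^ (2 + 1 / 50 : ℝ) * nn F φ = ∫ z in F, 16 * R ^ (2 + 1 / 50 : ℝ) * ‖φ z‖ ^ 2 := by
    rw [nn, integral_const_mul]
  rw [e1, nn]
  refine integral_mono_of_nonneg (Eventually.of_forall fun z => by positivity) (i1.const_mul _) (Eventually.of_forall fun z => ?_)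
  change ‖QU.lap φ z - ((R ^ 2 * (U z + 2 * 0) : ℝ) : ℂ) * φ z‖ ^ 2 ≤ 16 * R ^ (2 + 1 / 50 : ℝ) * ‖φ z‖ ^ 2
  have e2 : QU.lap φ z - ((R ^ 2 * (U z + 2 * 0) : ℝ) : ℂ) * φ z = ((2 * R : ℝ) : ℂ) * Hop U R φ z := by
    rw [Hop, ← mul_assoc, ← Complex.ofReal_mul, mul_inv_cancel₀ (by positivity), Complex.ofReal_one, one_mul, mul_zero, add_zero]
  have e3 : ‖QU.lap φ z - ((R ^ 2 * (U z + 2 * 0) : ℝ) : ℂ) * φ z‖ ≤ 4 * (R * R ^ (1 / 100 : ℝ)) * ‖φ z‖ := by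
    rw [e2, norm_mul, Complex.norm_real, Real.norm_of_nonneg (by positivity)]
    have := mul_le_mul_of_nonneg_left (hH z) (by positivity : 0 ≤ 2 * R)
    linarith
  have e4 : 16 * R ^ (2 + 1 / 50 : ℝ) * ‖φ z‖ ^ 2 = (4 * (R * R ^ (1 / 100 : ℝ)) * ‖φ z‖) ^ 2 := by
    have e5 : R ^ (2 + 1 / 50 : ℝ) = (R * R ^ (1 / 100 : ℝ)) ^ 2 := by
      rw [mul_pow, ← Real.rpow_natCast (R ^ (1 / 100 : ℝ)), ← Real.rpow_mul h0.le, Real.rpow_add h0]
      norm_num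
    rw [e5]
    ring
  rw [e4]
  exact pow_le_pow_left₀ (norm_nonneg _) e3 2

theorem EDW_proof (hEDH : EDH_stmt) (hVIS : VIS_stmt) (hVEL : VEL_stmt) (hVQA : VQA_stmt) (hVQS : VQS_stmt) (hVUB : VUB_stmt) : EDW_stmt := by
  obtain ⟨R1, hR1, HE⟩ := hEDH
  refine ⟨64, by norm_num, ?_⟩
  intro ch B A hch hA
  obtain ⟨z0, -, -, -, z2, -, -⟩ := Adm_small hA (by norm_num)
  have hz : A.z ≤ 1 / 64 := by
    have h1 := (Adm_small hA (by norm_num)).2.1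
    have h2 := (Adm_small hA (by norm_num)).2.2.1
    linarith
  have hz8 : A.z ≤ 1 / 8 := by linarith
  obtain ⟨R2, hR2, H2⟩ := hVIS ch A.z hch z0 hz8
  obtain ⟨R3, hR3, H3⟩ := hVEL ch A.z (1 / 10) hch z0 hz8
  obtain ⟨R4, hR4, H4⟩ := hVQA ch A.z hch z0 hz8
  obtain ⟨R5, hR5, H5⟩ := hVQS ch A.z hch z0 hz8
  refine ⟨max (max (max R1 R2) (max R3 R4)) (max R5 (17 ^ 8)), ?_, ?_⟩
  · exact (by norm_num : (1 : ℝ) ≤ 17 ^ 8).trans ((le_max_right _ _).trans (le_max_right _ _))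
  intro R δ Γ F D f F' μ φ hR hΓ hF hD hδ hE
  have hRa : R1 ≤ R := (le_max_left _ _).trans ((le_max_left _ _).trans ((le_max_left _ _).trans hR))
  have hRb : R2 ≤ R := (le_max_right _ _).trans ((le_max_left _ _).trans ((le_max_left _ _).trans hR))
  have hRc : R3 ≤ R := (le_max_left _ _).trans ((le_max_right _ _).trans ((le_max_left _ _).trans hR))
  have hRd : R4 ≤ R := (le_max_right _ _).trans ((le_max_right _ _).trans ((le_max_left _ _).trans hR))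
  have hRe : R5 ≤ R := (le_max_left _ _).trans ((le_max_right _ _).trans hR)
  have hRf : 17 ^ 8 ≤ R := (le_max_right _ _).trans ((le_max_right _ _).trans hR)
  have h1 : (1 : ℝ) ≤ R := le_trans (by norm_num) hRf
  have h0 : 0 < R := by linarith
  have hDm : Dm Γ F := Or.inl ⟨hΓ, hF⟩
  obtain ⟨hPU, -, -, -, -, hUg, -⟩ := hVUB Γ δ B D.U hD.pot hδ
  obtain ⟨hφ, hcd, -, -, hH⟩ := HE Γ F D.U R f F' μ φ hRa hΓ hF hPU hE
  have hV := H2 R Γ F D.U φ hRb hDm hPU hφ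
  have hL := H3 R Γ F D.U φ 0 hRc hDm hPU (fun g v hv => ((hUg g v hv).2).trans (mul_le_mul_of_nonneg_right hδ (norm_nonneg _))) (by norm_num) hφ hcd
  obtain ⟨hA1, hA2⟩ := (H4 R Γ F D.U hRd hDm hPU).1 φ hφ
  obtain ⟨-, -, -, hQ, -, -⟩ := H5 R Γ F D.U hRe hDm hPU
  obtain ⟨-, hq⟩ := hQ φ hφ
  have n0 : 0 ≤ nn F φ := integral_nonneg fun z => by positivity
  -- the window
  have hw : 2 * R ^ (-(1 / 4) : ℝ) < 1 / 4 := by
    have e1 : (8 : ℝ) < R ^ (1 / 4 : ℝ) := by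
      have e2 : (8 : ℝ) = (4096 : ℝ) ^ (1 / 4 : ℝ) := by
        rw [show (4096 : ℝ) = 8 ^ (4 : ℝ) by norm_num, ← Real.rpow_mul (by norm_num)]
        norm_num
      rw [e2]
      exact Real.rpow_lt_rpow (by norm_num) (lt_of_lt_of_le (by norm_num) hRf) (by norm_num)
    rw [Real.rpow_neg (by linarith)]
    have e3 : (R ^ (1 / 4 : ℝ))⁻¹ < 8⁻¹ := by
      rw [inv_lt_inv₀ (by linarith) (by norm_num)]
      exact e1
    linarith
  have w0 : 0 < R ^ (-(1 / 4) : ℝ) := Real.rpow_pos_of_pos h0 _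
  have hWi : ∀ c : ℝ, c ≤ 2 → ∀ (g : SL(2, ℝ)), Wi c R ⊆ {E : ℝ | -(D.U (g • I) / 2) < E} := by
    intro c hc g E hE
    have e1 := (hPU.bd (g • I)).1
    have e2 := hE.1
    have e3 : c * R ^ (-(1 / 4) : ℝ) ≤ 2 * R ^ (-(1 / 4) : ℝ) := mul_le_mul_of_nonneg_right hc w0.le
    simp only [mem_ofPred_eq]
    linarith
  -- the second moment
  have hb : R ^ (8 * A.z) * (R ^ (-4 : ℝ) * nn F (fun z => QU.lap φ z - ((R ^ 2 * (D.U z + 2 * 0) : ℝ) : ℂ) * φ z) + R ^ (-1 : ℝ) * nn F φ) ≤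
      R ^ (8 * A.z) * (17 * R ^ (-1 : ℝ)) * nn F φ := by
    have e1 := EDW_hop hF.meas h1 hφ.cont hφ.supp hH
    have e2 : 0 < R ^ (8 * A.z) := Real.rpow_pos_of_pos h0 _
    have e3 : 0 < R ^ (-4 : ℝ) := Real.rpow_pos_of_pos h0 _
    have e4 : R ^ (-4 : ℝ) * R ^ (2 + 1 / 50 : ℝ) ≤ R ^ (-1 : ℝ) := by
      rw [← Real.rpow_add h0]
      exact Real.rpow_le_rpow_of_exponent_le h1 (by norm_num)
    have e5 := mul_le_mul_of_nonneg_left e1 e3.le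
    have e6 := mul_le_mul_of_nonneg_right e4 n0
    rw [mul_assoc]
    apply mul_le_mul_of_nonneg_left _ e2.le
    have e7 : R ^ (-4 : ℝ) * (16 * R ^ (2 + 1 / 50 : ℝ) * nn F φ) = 16 * (R ^ (-4 : ℝ) * R ^ (2 + 1 / 50 : ℝ) * nn F φ) := by ring
    rw [e7] at e5
    have e8 : 17 * R ^ (-1 : ℝ) * nn F φ = 16 * (R ^ (-1 : ℝ) * nn F φ) + R ^ (-1 : ℝ) * nn F φ := by ring
    rw [e8]
    have e9 := e5.trans (mul_le_mul_of_nonneg_left e6 (by norm_num : (0 : ℝ) ≤ 16))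
    exact add_le_add e9 le_rfl
  have hout : ∀ c : ℝ, 1 ≤ c → c ≤ 2 → (∫⁻ g in dG F, (∫⁻ E in {E : ℝ | -(D.U (g • I) / 2) < E} \ Wi c R, ‖QF D.U ch A.z R φ (g, E)‖ₑ ^ 2) ∂mG).toReal ≤
      R ^ (-(1 / 4) : ℝ) * nn F φ := by
    intro c hc1 hc2
    have e1 := (EDW_out (F := F) (U := D.U) (c := c) (R := R) (fun g E => ‖QF D.U ch A.z R φ (g, E)‖ₑ ^ 2) (fun E hE => EDW_E h0 hc1 hE)).trans hL
    have e2 := ENNReal.toReal_mono ENNReal.ofReal_ne_top e1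
    have a0 : 0 < R ^ (-(1 / 2) : ℝ) := Real.rpow_pos_of_pos h0 _
    rw [ENNReal.toReal_mul, ENNReal.toReal_ofReal a0.le] at e2
    have e3 : (ENNReal.ofReal (R ^ (8 * A.z) * (R ^ (-4 : ℝ) * nn F (fun z => QU.lap φ z - ((R ^ 2 * (D.U z + 2 * 0) : ℝ) : ℂ) * φ z) + R ^ (-1 : ℝ) * nn F φ))).toReal ≤
        R ^ (8 * A.z) * (17 * R ^ (-1 : ℝ)) * nn F φ := by
      refine ENNReal.toReal_le_of_le_ofReal ?_ (ENNReal.ofReal_le_ofReal hb)
      positivity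
    have e4 := e2.trans e3
    have e5 : R ^ (1 / 2 : ℝ) * R ^ (-(1 / 2) : ℝ) = 1 := by
      rw [← Real.rpow_add h0]
      norm_num
    have e6 : 0 < R ^ (1 / 2 : ℝ) := Real.rpow_pos_of_pos h0 _
    have e7 := mul_le_mul_of_nonneg_left e4 e6.le
    rw [← mul_assoc, e5, one_mul] at e7
    refine e7.trans ?_
    have e8 := mul_le_mul_of_nonneg_right (EDW_num hRf hz) n0
    linarith
  refine ⟨hq, hA2.trans (hout 2 (by norm_num) le_rfl), hA1, ?_, ?_⟩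
  · have e8 := hV
    rw [EDW_split hq.meas (hWi 1 (by norm_num))] at e8
    have hsum : nn F φ = nP F 1 R (QF D.U ch A.z R φ) +
        (∫⁻ g in dG F, (∫⁻ E in {E : ℝ | -(D.U (g • I) / 2) < E} \ Wi 1 R, ‖QF D.U ch A.z R φ (g, E)‖ₑ ^ 2) ∂mG).toReal := by
      rw [EDW_nP hq.meas, ← ENNReal.toReal_add, e8, ENNReal.toReal_ofReal n0]
      · refine ne_top_of_le_ne_top ENNReal.ofReal_ne_top (e8 ▸ le_self_add)
      · refine ne_top_of_le_ne_top ENNReal.ofReal_ne_top (e8 ▸ le_add_self)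
    have := hout 1 le_rfl (by norm_num)
    linarith
  · have hi := VQA_fp hF.meas R hq
    have hsub : PW F 1 R ⊆ PW F 2 R := by
      intro p hp
      refine ⟨hp.1, ?_, ?_⟩
      · have := hp.2.1
        linarith
      · have := hp.2.2
        linarith
    exact setIntegral_mono_set hi (Eventually.of_forall fun p => by positivity) (LE.le.eventuallyLE hsub)

end

end Pool.Agent.VQ
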