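import Pool.Agent.helper80.VQ.SpecFL
import Pool.Agent.helper16.CRO.CFL
import Pool.Agent.helper16.CRO.FLX
import Pool.Agent.helper16.CRO.LIN
import Pool.Agent.helper16.CRO.DIF
import Pool.Agent.helper16.CRO.DCT

/-!
# MP_07c750, project VQ, row GFL (the flow of a field of linear growth)
-/

set_option autoImplicit false

open scoped MatrixGroups ContDiff Topology UpperHalfPlane ComplexConjugate ENNReal
open UpperHalfPlane MeasureTheory Filter Set

namespace Pool.Agent.VQ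

open Pool.Agent.RS
open Pool.Agent.VQE (nm)

section

variable {F : Type} [NormedAddCommGroup F] [NormedSpace ℝ F]

theorem GFL_gb (δ C t : ℝ) : gronwallBound δ C C t = (1 + δ) * Real.exp (C * t) - 1 := by
  by_cases h : C = 0
  · subst h
    rw [gronwallBound_K0]
    change δ + 0 * t = (1 + δ) * Real.exp (0 * t) - 1
    rw [zero_mul, Real.exp_zero]
    ring
  · rw [gronwallBound_of_K_ne_0 h, div_self h]
    ring

theorem GFL_ap0 {v : F → F} {C : ℝ} (hv : ∀ x, ‖v x‖ ≤ C * (1 + ‖x‖)) {x : ℝ → F}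
    (hx : ∀ t, HasDerivAt x (v (x t)) t) {t : ℝ} (ht : 0 ≤ t) : 1 + ‖x t‖ ≤ (1 + ‖x 0‖) * Real.exp (C * t) := by
  have h := norm_le_gronwallBound_of_norm_deriv_right_le (f := x) (f' := fun t => v (x t)) (δ := ‖x 0‖) (K := C) (ε := C)
    (a := 0) (b := t) (fun s _ => (hx s).continuousAt.continuousWithinAt) (fun s _ => (hx s).hasDerivWithinAt) le_rfl
    (fun s _ => by
      have h1 := hv (x s)
      linarith) t ⟨ht, le_rfl⟩
  rw [GFL_gb, sub_zero] at h
  linarith

theorem GFL_rev {v : F → F} {x : ℝ → F} {t : ℝ} (hx : HasDerivAt x (v (x (-t))) (-t)) :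
    HasDerivAt (fun s => x (-s)) (-v (x (-t))) t := by
  have h := hx.scomp t (hasDerivAt_neg t)
  have h2 : (-1 : ℝ) • v (x (-t)) = -v (x (-t)) := neg_one_smul ℝ _
  rw [← h2]
  exact h

theorem GFL_ap {v : F → F} {C : ℝ} (hv : ∀ x, ‖v x‖ ≤ C * (1 + ‖x‖)) {x : ℝ → F}
    (hx : ∀ t, HasDerivAt x (v (x t)) t) (t : ℝ) : 1 + ‖x t‖ ≤ (1 + ‖x 0‖) * Real.exp (C * |t|) := by
  rcases le_total 0 t with ht | ht
  · rw [abs_of_nonneg ht]
    exact GFL_ap0 hv hx ht
  · have h := GFL_ap0 (v := fun y => -v y) (C := C) (fun y => by rw [norm_neg]; exact hv y) (x := fun s => x (-s))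
      (fun s => GFL_rev (hx (-s))) (t := -t) (by linarith)
    rw [abs_of_nonpos ht]
    change 1 + ‖x (-(-t))‖ ≤ (1 + ‖x (-0)‖) * Real.exp (C * -t) at h
    rwa [neg_neg, neg_zero] at h

theorem GFL_un0 {v : F → F} {K : NNReal} (hK : LipschitzWith K v) {T : ℝ} {x y : ℝ → F}
    (hx : ∀ t, 0 ≤ t → t ≤ T → HasDerivAt x (v (x t)) t) (hy : ∀ t, 0 ≤ t → t ≤ T → HasDerivAt y (v (y t)) t)
    (h0 : x 0 = y 0) {t : ℝ} (ht : 0 ≤ t) (htT : t ≤ T) : x t = y t := by
  have h := dist_le_of_trajectories_ODE (v := fun _ => v) (K := K) (f := x) (g := y) (a := 0)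
    (b := t) (δ := 0) (fun _ => hK)
    (fun s hs => (hx s hs.1 (hs.2.trans htT)).continuousAt.continuousWithinAt)
    (fun s hs => (hx s hs.1 (hs.2.le.trans htT)).hasDerivWithinAt)
    (fun s hs => (hy s hs.1 (hs.2.trans htT)).continuousAt.continuousWithinAt)
    (fun s hs => (hy s hs.1 (hs.2.le.trans htT)).hasDerivWithinAt) (by rw [h0, dist_self])
    t ⟨ht, le_rfl⟩
  rw [zero_mul] at h
  exact dist_le_zero.1 h

theorem GFL_un {v : F → F} {K : NNReal} (hK : LipschitzWith K v) {T : ℝ} {x y : ℝ → F}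
    (hx : ∀ t, |t| ≤ T → HasDerivAt x (v (x t)) t) (hy : ∀ t, |t| ≤ T → HasDerivAt y (v (y t)) t)
    (h0 : x 0 = y 0) {t : ℝ} (ht : |t| ≤ T) : x t = y t := by
  rcases le_total 0 t with h | h
  · refine GFL_un0 hK (T := T) (fun s hs hs' => hx s ?_) (fun s hs hs' => hy s ?_) h0 h ((le_abs_self t).trans ht)
    · rwa [abs_of_nonneg hs]
    · rwa [abs_of_nonneg hs]
  · have hK' : LipschitzWith K fun x => -v x := hK.neg
    have h1 := GFL_un0 hK' (T := T) (x := fun s => x (-s)) (y := fun s => y (-s))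
      (fun s hs hs' => GFL_rev (hx (-s) (by rw [abs_neg, abs_of_nonneg hs]; exact hs')))
      (fun s hs hs' => GFL_rev (hy (-s) (by rw [abs_neg, abs_of_nonneg hs]; exact hs')))
      (by
        change x (-0) = y (-0)
        rw [neg_zero, h0]) (t := -t) (by linarith) ((neg_le_abs t).trans ht)
    change x (-(-t)) = y (-(-t)) at h1
    rwa [neg_neg] at h1

end

theorem GFL_proof : GFL_stmt := by
  intro F _ _ _ f C hf hC hgr
  have hCFL := Pool.Agent.CRO.CFL Pool.Agent.CRO.FLX Pool.Agent.CRO.LIN Pool.Agent.CRO.DIF Pool.Agent.CRO.DCT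
  -- the cut off fields
  have hcut : ∀ n : ℕ, ∃ g : F → F, ContDiff ℝ 2 g ∧ HasCompactSupport g ∧ (∀ x, ‖g x‖ ≤ C * (1 + ‖x‖)) ∧
      ∀ x, ‖x‖ ≤ n + 1 → g x = f x := by
    intro n
    let b : ContDiffBump (0 : F) := ⟨n + 1, n + 2, by positivity, by linarith⟩
    refine ⟨fun x => b x • f x, b.contDiff.smul hf, b.hasCompactSupport.smul_right, fun x => ?_, fun x hx => ?_⟩
    · rw [norm_smul, Real.norm_eq_abs, abs_of_nonneg b.nonneg]
      have h1 : b x * ‖f x‖ ≤ 1 * ‖f x‖ := mul_le_mul_of_nonneg_right b.le_one (norm_nonneg _)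
      rw [one_mul] at h1
      exact h1.trans (hgr x)
    · have h1 : b x = 1 := b.one_of_mem_closedBall (by
        rw [Metric.mem_closedBall, dist_zero_right]
        exact hx)
      change b x • f x = f x
      rw [h1, one_smul]
  choose g hg2 hgs hgg hgf using hcut
  choose Ψ hΨ using fun n => hCFL F (g n) (hg2 n) (hgs n)
  have hLip : ∀ n, ∃ K : NNReal, LipschitzWith K (g n) := fun n =>
    ContDiff.lipschitzWith_of_hasCompactSupport (hgs n) (hg2 n) two_ne_zero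
  -- a priori bounds
  have hap : ∀ (n : ℕ) (t : ℝ) (x : F), 1 + ‖Ψ n t x‖ ≤ (1 + ‖x‖) * Real.exp (C * |t|) := by
    intro n t x
    have h := GFL_ap (hgg n) (x := fun s => Ψ n s x) (fun s => (hΨ n).ode x s) t
    rwa [(hΨ n).zero] at h
  have hmono : ∀ (x : F) (s t : ℝ), |s| ≤ |t| → (1 + ‖x‖) * Real.exp (C * |s|) ≤ (1 + ‖x‖) * Real.exp (C * |t|) := by
    intro x s t h
    exact mul_le_mul_of_nonneg_left (Real.exp_le_exp.2 (mul_le_mul_of_nonneg_left h hC)) (by positivity)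
  -- any solution of the full equation agrees with the flows
  have huni : ∀ (n : ℕ) (y : ℝ → F) (t : ℝ), (∀ s, |s| ≤ |t| → HasDerivAt y (f (y s)) s) →
      (∀ s, |s| ≤ |t| → ‖y s‖ ≤ n + 1) → (1 + ‖y 0‖) * Real.exp (C * |t|) ≤ n + 1 → y t = Ψ n t (y 0) := by
    intro n y t hy hb hn
    obtain ⟨K, hK⟩ := hLip n
    refine GFL_un hK (T := |t|) (x := y) (y := fun s => Ψ n s (y 0)) (fun s hs => ?_) (fun s _ => (hΨ n).ode _ s)
      ((hΨ n).zero _).symm le_rfl
    rw [hgf n _ (hb s hs)]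
    exact hy s hs
  have hsol : ∀ (n : ℕ) (t : ℝ) (x : F), (1 + ‖x‖) * Real.exp (C * |t|) ≤ n + 1 →
      ∀ s, |s| ≤ |t| → ‖Ψ n s x‖ ≤ n ∧ HasDerivAt (fun r => Ψ n r x) (f (Ψ n s x)) s := by
    intro n t x hn s hs
    have h1 := hap n s x
    have h2 := hmono x s t hs
    have h3 : ‖Ψ n s x‖ ≤ n := by linarith
    refine ⟨h3, ?_⟩
    have h4 := (hΨ n).ode x s
    rw [hgf n _ (by linarith)] at h4
    exact h4
  have heq : ∀ (m n : ℕ) (t : ℝ) (x : F), (1 + ‖x‖) * Real.exp (C * |t|) ≤ m + 1 →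
      (1 + ‖x‖) * Real.exp (C * |t|) ≤ n + 1 → Ψ m t x = Ψ n t x := by
    intro m n t x hm hn
    have h0 : Ψ m 0 x = x := (hΨ m).zero x
    have h := huni n (fun s => Ψ m s x) t (fun s hs => (hsol m t x hm s hs).2) (fun s hs => by
      have h1 := hap m s x
      have h2 := hmono x s t hs
      linarith) (by
      change (1 + ‖Ψ m 0 x‖) * Real.exp (C * |t|) ≤ n + 1
      rw [h0]
      exact hn)
    change Ψ m t x = Ψ n t (Ψ m 0 x) at h
    rwa [h0] at h
  -- the flow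
  obtain ⟨Φ, hΦdef⟩ : ∃ Φ : ℝ → F → F, Φ = fun t x => Ψ ⌈(1 + ‖x‖) * Real.exp (C * |t|)⌉₊ t x := ⟨_, rfl⟩
  have hΦ : ∀ (n : ℕ) (t : ℝ) (x : F), (1 + ‖x‖) * Real.exp (C * |t|) ≤ n + 1 → Φ t x = Ψ n t x := by
    intro n t x hn
    rw [hΦdef]
    refine heq _ n t x ?_ hn
    have := Nat.le_ceil ((1 + ‖x‖) * Real.exp (C * |t|))
    linarith
  have hex : ∀ (t : ℝ) (x : F), ∃ n : ℕ, (1 + ‖x‖) * Real.exp (C * |t|) < n + 1 := by
    intro t x
    refine ⟨⌈(1 + ‖x‖) * Real.exp (C * |t|)⌉₊, ?_⟩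
    have := Nat.le_ceil ((1 + ‖x‖) * Real.exp (C * |t|))
    linarith
  have hcont : Continuous fun q : ℝ × F => (1 + ‖q.2‖) * Real.exp (C * |q.1|) :=
    (continuous_const.add continuous_snd.norm).mul (Real.continuous_exp.comp (continuous_const.mul continuous_fst.abs))
  have hev : ∀ (n : ℕ) (t : ℝ) (x : F), (1 + ‖x‖) * Real.exp (C * |t|) < n + 1 →
      ∀ᶠ q : ℝ × F in 𝓝 (t, x), (1 + ‖q.2‖) * Real.exp (C * |q.1|) < n + 1 := by
    intro n t x h
    exact hcont.continuousAt.eventually_lt continuousAt_const h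
  have hevt : ∀ (n : ℕ) (t : ℝ) (x : F), (1 + ‖x‖) * Real.exp (C * |t|) < n + 1 →
      ∀ᶠ s : ℝ in 𝓝 t, (1 + ‖x‖) * Real.exp (C * |s|) < n + 1 := by
    intro n t x h
    have h1 : Continuous fun s : ℝ => (s, x) := continuous_id.prodMk continuous_const
    exact h1.continuousAt.eventually (hev n t x h)
  have hevx : ∀ (n : ℕ) (t : ℝ) (x : F), (1 + ‖x‖) * Real.exp (C * |t|) < n + 1 →
      ∀ᶠ y : F in 𝓝 x, (1 + ‖y‖) * Real.exp (C * |t|) < n + 1 := by
    intro n t x h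
    have h1 : Continuous fun y : F => (t, y) := continuous_const.prodMk continuous_id
    exact h1.continuousAt.eventually (hev n t x h)
  have hfd : ∀ (n : ℕ) (t : ℝ) (x : F), (1 + ‖x‖) * Real.exp (C * |t|) < n + 1 → fderiv ℝ (Φ t) x = fderiv ℝ (Ψ n t) x := by
    intro n t x h
    refine Filter.EventuallyEq.fderiv_eq ?_
    filter_upwards [hevx n t x h] with y hy
    exact hΦ n t y hy.le
  refine ⟨Φ, ⟨⟨fun x => ?_, fun x t => ?_, fun s t x => ?_, ?_⟩, fun t x => ?_, fun x t => ?_, ?_⟩, fun x hx t => ?_⟩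
  · obtain ⟨n, hn⟩ := hex 0 x
    rw [hΦ n 0 x hn.le]
    exact (hΨ n).zero x
  · obtain ⟨n, hn⟩ := hex t x
    have h1 := (hsol n t x hn.le t le_rfl).2
    rw [hΦ n t x hn.le]
    refine h1.congr_of_eventuallyEq ?_
    filter_upwards [hevt n t x hn] with s hs
    exact hΦ n s x hs.le
  · obtain ⟨n, hn⟩ := hex (|s| + |t|) x
    rw [abs_of_nonneg (by positivity)] at hn
    have h1 : (1 + ‖x‖) * Real.exp (C * |s + t|) ≤ n + 1 := by
      refine le_trans ?_ hn.le
      exact mul_le_mul_of_nonneg_left (Real.exp_le_exp.2 (mul_le_mul_of_nonneg_left (abs_add_le s t) hC)) (by positivity)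
    have h2 : (1 + ‖x‖) * Real.exp (C * |t|) ≤ n + 1 := by
      refine le_trans ?_ hn.le
      exact mul_le_mul_of_nonneg_left (Real.exp_le_exp.2 (mul_le_mul_of_nonneg_left (by linarith [abs_nonneg s]) hC)) (by positivity)
    have h3 : Φ t x = Ψ n t x := hΦ n t x h2
    have h4 : (1 + ‖Ψ n t x‖) * Real.exp (C * |s|) ≤ n + 1 := by
      have h5 := mul_le_mul_of_nonneg_right (hap n t x) (Real.exp_pos (C * |s|)).le
      refine h5.trans (le_trans (le_of_eq ?_) hn.le)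
      rw [mul_assoc, ← Real.exp_add]
      congr 2
      ring
    rw [h3, hΦ n (s + t) x h1, hΦ n s _ h4]
    exact (hΨ n).add s t x
  · rw [continuous_iff_continuousAt]
    rintro ⟨t, x⟩
    obtain ⟨n, hn⟩ := hex t x
    refine ((hΨ n).cont.continuousAt (x := (t, x))).congr ?_
    filter_upwards [hev n t x hn] with q hq
    exact (hΦ n q.1 q.2 hq.le).symm
  · obtain ⟨n, hn⟩ := hex t x
    refine ((hΨ n).diff t x).congr_of_eventuallyEq ?_
    filter_upwards [hevx n t x hn] with y hy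
    exact hΦ n t y hy.le
  · obtain ⟨n, hn⟩ := hex t x
    have h1 := (hΨ n).var x t
    have h2 := (hsol n t x hn.le t le_rfl).1
    have h3 : fderiv ℝ (g n) (Ψ n t x) = fderiv ℝ f (Ψ n t x) := by
      refine Filter.EventuallyEq.fderiv_eq ?_
      have h4 : ∀ᶠ y : F in 𝓝 (Ψ n t x), ‖y‖ < n + 1 :=
        continuous_norm.continuousAt.eventually_lt continuousAt_const (by linarith)
      filter_upwards [h4] with y hy
      exact hgf n y hy.le
    rw [h3] at h1
    rw [hΦ n t x hn.le, hfd n t x hn]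
    refine h1.congr_of_eventuallyEq ?_
    filter_upwards [hevt n t x hn] with s hs
    exact hfd n s x hs
  · rw [continuous_iff_continuousAt]
    rintro ⟨t, x⟩
    obtain ⟨n, hn⟩ := hex t x
    refine ((hΨ n).dcont.continuousAt (x := (t, x))).congr ?_
    filter_upwards [hev n t x hn] with q hq
    exact (hfd n q.1 q.2 hq).symm
  · obtain ⟨n, hn⟩ := hex t (x 0)
    rw [hΦ n t (x 0) hn.le]
    refine huni n x t (fun s _ => hx s) (fun s hs => ?_) hn.le
    have h1 := GFL_ap hgr hx s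
    have h2 := hmono (x 0) s t hs
    linarith

end Pool.Agent.VQ
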