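import Pool.Agent.helper74.VQ.SpecB
import Pool.Agent.helper40.VQ.VCD

/-!
# MP_07c750, project VQ, row VTA (the action in the disc coordinate)
-/

set_option autoImplicit false

open scoped MatrixGroups ContDiff Topology UpperHalfPlane ComplexConjugate ENNReal
open UpperHalfPlane MeasureTheory Filter Set

namespace Pool.Agent.VQ

open Pool.Agent.RS

theorem VTA_cd (g : SL(2, ℝ)) (v : ℂ) (hv : ‖v‖ < 2) :
    cd (g • cdi v) = 2 * ((((g.1 0 0 : ℝ) : ℂ) * (Complex.I * (2 + v)) + ((g.1 0 1 : ℝ) : ℂ) * (2 - v)) -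
      Complex.I * (((g.1 1 0 : ℝ) : ℂ) * (Complex.I * (2 + v)) + ((g.1 1 1 : ℝ) : ℂ) * (2 - v))) /
      ((((g.1 0 0 : ℝ) : ℂ) * (Complex.I * (2 + v)) + ((g.1 0 1 : ℝ) : ℂ) * (2 - v)) +
      Complex.I * (((g.1 1 0 : ℝ) : ℂ) * (Complex.I * (2 + v)) + ((g.1 1 1 : ℝ) : ℂ) * (2 - v))) := by
  have h0 := VCD_den v hv
  have hz := VCD_cdi v hv
  have hD := VCD_sl g (cdi v) (cdi v).im_pos
  rw [hz] at hD
  obtain ⟨N, hN⟩ : ∃ N : ℂ, N = ((g.1 0 0 : ℝ) : ℂ) * (Complex.I * (2 + v)) + ((g.1 0 1 : ℝ) : ℂ) * (2 - v) := ⟨_, rfl⟩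
  obtain ⟨D, hDD⟩ : ∃ D : ℂ, D = ((g.1 1 0 : ℝ) : ℂ) * (Complex.I * (2 + v)) + ((g.1 1 1 : ℝ) : ℂ) * (2 - v) := ⟨_, rfl⟩
  have hD' : D ≠ 0 := by
    have h1 : D = (((g.1 1 0 : ℝ) : ℂ) * (Complex.I * (2 + v) / (2 - v)) + ((g.1 1 1 : ℝ) : ℂ)) * (2 - v) := by
      rw [hDD]
      field_simp
    rw [h1]
    exact mul_ne_zero hD h0
  have h2 : ((g • cdi v : ℍ) : ℂ) = N / D := by
    rw [VCD_coe, hz, div_eq_div_iff hD hD', hN, hDD]
    field_simp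
  rw [← hN, ← hDD]
  unfold cd
  rw [h2]
  have h3 : N / D - Complex.I = (N - Complex.I * D) / D := by
    field_simp
  have h4 : N / D + Complex.I = (N + Complex.I * D) / D := by
    field_simp
  rw [h3, h4, ← mul_div_assoc, div_div_div_cancel_right₀ hD']

/-- the two numbers -/
noncomputable def VTA_A (h : SL(2, ℝ)) : ℂ := (((h.1 0 0 + h.1 1 1) / 2 : ℝ) : ℂ) + (((h.1 0 1 - h.1 1 0) / 2 : ℝ) : ℂ) * Complex.I
noncomputable def VTA_B (h : SL(2, ℝ)) : ℂ := (((h.1 0 0 - h.1 1 1) / 2 : ℝ) : ℂ) - (((h.1 0 1 + h.1 1 0) / 2 : ℝ) : ℂ) * Complex.I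

theorem VTA_det (h : SL(2, ℝ)) : h.1 0 0 * h.1 1 1 - h.1 0 1 * h.1 1 0 = 1 := by
  have h1 := h.2
  rw [Matrix.det_fin_two] at h1
  exact h1

theorem VTA_re (h : SL(2, ℝ)) : (VTA_A h).re = (h.1 0 0 + h.1 1 1) / 2 ∧ (VTA_A h).im = (h.1 0 1 - h.1 1 0) / 2 ∧
    (VTA_B h).re = (h.1 0 0 - h.1 1 1) / 2 ∧ (VTA_B h).im = -((h.1 0 1 + h.1 1 0) / 2) := by
  unfold VTA_A VTA_B
  refine ⟨?_, ?_, ?_, ?_⟩
  · rw [Complex.add_re, Complex.ofReal_re, Complex.re_ofReal_mul, Complex.I_re]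
    ring
  · rw [Complex.add_im, Complex.ofReal_im, Complex.im_ofReal_mul, Complex.I_im]
    ring
  · rw [Complex.sub_re, Complex.ofReal_re, Complex.re_ofReal_mul, Complex.I_re]
    ring
  · rw [Complex.sub_im, Complex.ofReal_im, Complex.im_ofReal_mul, Complex.I_im]
    ring

theorem VTA_sq (h : SL(2, ℝ)) : ‖VTA_A h‖ ^ 2 = 1 + ‖VTA_B h‖ ^ 2 := by
  obtain ⟨h1, h2, h3, h4⟩ := VTA_re h
  rw [← Complex.normSq_eq_norm_sq, ← Complex.normSq_eq_norm_sq, Complex.normSq_apply, Complex.normSq_apply, h1, h2, h3, h4]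
  have h5 := VTA_det h
  nlinarith

theorem VTA_ne (h : SL(2, ℝ)) : VTA_A h ≠ 0 := by
  intro h0
  have h1 := VTA_sq h
  rw [h0, norm_zero] at h1
  nlinarith [sq_nonneg ‖VTA_B h‖]

theorem VTA_conj (h : SL(2, ℝ)) : conj (VTA_A h) = (((h.1 0 0 + h.1 1 1) / 2 : ℝ) : ℂ) - (((h.1 0 1 - h.1 1 0) / 2 : ℝ) : ℂ) * Complex.I ∧
    conj (VTA_B h) = (((h.1 0 0 - h.1 1 1) / 2 : ℝ) : ℂ) + (((h.1 0 1 + h.1 1 0) / 2 : ℝ) : ℂ) * Complex.I := by
  unfold VTA_A VTA_B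
  simp only [map_add, map_sub, map_mul, Complex.conj_ofReal, Complex.conj_I]
  constructor <;> ring

theorem VTA_inv (h : SL(2, ℝ)) : (h⁻¹).1 0 0 = h.1 1 1 ∧ (h⁻¹).1 0 1 = -h.1 0 1 ∧ (h⁻¹).1 1 0 = -h.1 1 0 ∧ (h⁻¹).1 1 1 = h.1 0 0 := by
  have h1 : (h⁻¹).1 = Matrix.adjugate h.1 := Matrix.SpecialLinearGroup.coe_inv h
  rw [h1, Matrix.adjugate_fin_two]
  exact ⟨rfl, rfl, rfl, rfl⟩

theorem VTA_h (h : SL(2, ℝ)) (v : ℂ) (hv : ‖v‖ < 2) :
    cd (h⁻¹ • cdi v) = (conj (VTA_A h) * v - 2 * VTA_B h) / (VTA_A h - conj (VTA_B h) * v / 2) := by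
  rw [VTA_cd _ v hv]
  obtain ⟨h1, h2, h3, h4⟩ := VTA_inv h
  rw [h1, h2, h3, h4]
  obtain ⟨h5, h6⟩ := VTA_conj h
  have hX0 : (4 : ℂ) * Complex.I ≠ 0 := mul_ne_zero (by norm_num) Complex.I_ne_zero
  have hI : Complex.I ^ 2 = -1 := Complex.I_sq
  rw [← mul_div_mul_left (conj (VTA_A h) * v - 2 * VTA_B h) _ hX0, h5, h6]
  unfold VTA_A VTA_B
  congr 1
  · push_cast
    linear_combination (-((h.1 1 0 : ℝ) : ℂ) * (2 + v) * 2 * (-1) + 2 * v * (((h.1 0 1 : ℝ) : ℂ) - ((h.1 1 0 : ℝ) : ℂ)) -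
      4 * (((h.1 0 1 : ℝ) : ℂ) + ((h.1 1 0 : ℝ) : ℂ))) * hI
  · push_cast
    linear_combination (-((h.1 1 0 : ℝ) : ℂ) * (2 + v) - 2 * (((h.1 0 1 : ℝ) : ℂ) - ((h.1 1 0 : ℝ) : ℂ)) +
      v * (((h.1 0 1 : ℝ) : ℂ) + ((h.1 1 0 : ℝ) : ℂ))) * hI

theorem VTA_w (h : SL(2, ℝ)) : cd (h • I) = 2 * VTA_B h / conj (VTA_A h) := by
  have h0 : (0 : ℂ) = cd I := by
    unfold cd
    rw [UpperHalfPlane.coe_I, sub_self, mul_zero, zero_div]
  have h1 : cdi (0 : ℂ) = I := by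
    rw [h0, VCD_cdicd]
  have h2 := VTA_cd h 0 (by rw [norm_zero]; exact two_pos)
  rw [h1] at h2
  rw [h2]
  obtain ⟨h5, h6⟩ := VTA_conj h
  have hX0 : (4 : ℂ) * Complex.I ≠ 0 := mul_ne_zero (by norm_num) Complex.I_ne_zero
  have hI : Complex.I ^ 2 = -1 := Complex.I_sq
  rw [← mul_div_mul_left (2 * VTA_B h) _ hX0, h5]
  unfold VTA_B
  congr 1
  · push_cast
    linear_combination (-((h.1 1 0 : ℝ) : ℂ) * 4 + 4 * (((h.1 0 1 : ℝ) : ℂ) + ((h.1 1 0 : ℝ) : ℂ))) * hI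
  · push_cast
    linear_combination (((h.1 1 0 : ℝ) : ℂ) * 2 + 2 * (((h.1 0 1 : ℝ) : ℂ) - ((h.1 1 0 : ℝ) : ℂ))) * hI

theorem VTA_exp (h : SL(2, ℝ)) : Complex.exp (((2 * (VTA_A h).arg : ℝ) : ℂ) * Complex.I) = VTA_A h / conj (VTA_A h) := by
  have hA := VTA_ne h
  have hAc : conj (VTA_A h) ≠ 0 := (map_ne_zero _).2 hA
  have h1 : ((2 * (VTA_A h).arg : ℝ) : ℂ) * Complex.I = ((VTA_A h).arg : ℂ) * Complex.I + ((VTA_A h).arg : ℂ) * Complex.I := by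
    push_cast
    ring
  rw [h1, Complex.exp_add, eq_div_iff hAc]
  obtain ⟨e, he⟩ : ∃ e : ℂ, e = Complex.exp (((VTA_A h).arg : ℂ) * Complex.I) := ⟨_, rfl⟩
  have h2 : (‖VTA_A h‖ : ℂ) * e = VTA_A h := by
    rw [he]
    exact Complex.norm_mul_exp_arg_mul_I _
  have h3 : e * conj e = 1 := by
    rw [Complex.mul_conj, Complex.normSq_eq_norm_sq, he, Complex.norm_exp_ofReal_mul_I]
    norm_num
  have h4 : conj (VTA_A h) = (‖VTA_A h‖ : ℂ) * conj e := by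
    conv_lhs => rw [← h2]
    rw [map_mul, Complex.conj_ofReal]
  rw [← he, h4]
  calc e * e * ((‖VTA_A h‖ : ℂ) * conj e) = (‖VTA_A h‖ : ℂ) * e * (e * conj e) := by ring
    _ = VTA_A h := by rw [h3, mul_one, h2]

theorem VTA_proof : VTA_stmt := by
  refine ⟨4, by norm_num, fun h _ => ?_⟩
  have hA := VTA_ne h
  have hAc : conj (VTA_A h) ≠ 0 := (map_ne_zero _).2 hA
  have hE := VTA_exp h
  refine ⟨2 * (VTA_A h).arg, fun v hv => ?_, fun s hs hs1 hw hα => ?_⟩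
  · rw [VTA_h h v hv, VTA_w, Complex.exp_neg, hE]
    have h1 : conj (2 * VTA_B h / conj (VTA_A h)) = 2 * conj (VTA_B h) / VTA_A h := by
      rw [map_div₀, map_mul, Complex.conj_conj, map_ofNat]
    have h2 : (VTA_A h / conj (VTA_A h))⁻¹ * (v - 2 * VTA_B h / conj (VTA_A h)) = (conj (VTA_A h) * v - 2 * VTA_B h) / VTA_A h := by
      field_simp
    have h3 : 1 - 2 * conj (VTA_B h) / VTA_A h * v / 4 = (VTA_A h - conj (VTA_B h) * v / 2) / VTA_A h := by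
      field_simp
      ring
    rw [h1, h2, h3, div_div_div_cancel_right₀ hA]
  · obtain ⟨r1, r2, r3, r4⟩ := VTA_re h
    have hn : 0 < ‖VTA_A h‖ := norm_pos_iff.2 hA
    have hnc : ‖conj (VTA_A h)‖ = ‖VTA_A h‖ := Complex.norm_conj _
    have h1 : 2 * ‖VTA_B h‖ < s * ‖VTA_A h‖ := by
      rw [VTA_w, norm_div, norm_mul, Complex.norm_two, hnc, div_lt_iff₀ hn] at hw
      exact hw
    have h2 : 2 * |(VTA_A h).im| < s * ‖VTA_A h‖ := by
      have h3 : VTA_A h / conj (VTA_A h) - 1 = (VTA_A h - conj (VTA_A h)) / conj (VTA_A h) := by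
        field_simp
      rw [hE, h3, norm_div, hnc, div_lt_iff₀ hn, Complex.sub_conj, norm_mul, Complex.norm_I, mul_one, Complex.norm_real,
        Real.norm_eq_abs, abs_mul, abs_two] at hα
      exact hα
    have hsq := VTA_sq h
    have hB0 := norm_nonneg (VTA_B h)
    have hA43 : ‖VTA_A h‖ ≤ 4 / 3 := by
      have h3 : (2 * ‖VTA_B h‖) ^ 2 ≤ (‖VTA_A h‖) ^ 2 := by
        refine pow_le_pow_left₀ (by positivity) ?_ 2
        nlinarith
      nlinarith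
    have hB : ‖VTA_B h‖ ≤ 2 / 3 * s := by nlinarith
    have hIm : |(VTA_A h).im| ≤ 2 / 3 * s := by nlinarith
    have hreB : |(VTA_B h).re| ≤ 2 / 3 * s := (Complex.abs_re_le_norm _).trans hB
    have himB : |(VTA_B h).im| ≤ 2 / 3 * s := (Complex.abs_im_le_norm _).trans hB
    have hre2 : (VTA_A h).re ^ 2 = 1 + ‖VTA_B h‖ ^ 2 - (VTA_A h).im ^ 2 := by
      rw [← hsq, ← Complex.normSq_eq_norm_sq, Complex.normSq_apply]
      ring
    have hi2 : (VTA_A h).im ^ 2 ≤ 4 / 9 * s := by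
      rw [← sq_abs]
      have h0 := abs_nonneg (VTA_A h).im
      nlinarith
    have hb2 : ‖VTA_B h‖ ^ 2 ≤ 4 / 9 * s := by nlinarith
    rw [abs_le] at hIm hreB himB
    rcases le_total 0 (VTA_A h).re with h0 | h0
    · left
      have hr : |(VTA_A h).re - 1| ≤ 4 / 9 * s := by
        rw [abs_le]
        constructor <;> nlinarith [sq_nonneg (VTA_A h).im]
      rw [abs_le] at hr
      intro i j
      fin_cases i <;> fin_cases j
      · change |h.1 0 0 - 1| < 4 * s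
        rw [abs_lt]
        constructor <;> linarith [hr.1, hr.2, hreB.1, hreB.2]
      · change |h.1 0 1 - 0| < 4 * s
        rw [abs_lt]
        constructor <;> linarith [hIm.1, hIm.2, himB.1, himB.2]
      · change |h.1 1 0 - 0| < 4 * s
        rw [abs_lt]
        constructor <;> linarith [hIm.1, hIm.2, himB.1, himB.2]
      · change |h.1 1 1 - 1| < 4 * s
        rw [abs_lt]
        constructor <;> linarith [hr.1, hr.2, hreB.1, hreB.2]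
    · right
      have hr : |(VTA_A h).re + 1| ≤ 4 / 9 * s := by
        rw [abs_le]
        constructor <;> nlinarith [sq_nonneg (VTA_A h).im]
      rw [abs_le] at hr
      intro i j
      fin_cases i <;> fin_cases j
      · change |h.1 0 0 + 1| < 4 * s
        rw [abs_lt]
        constructor <;> linarith [hr.1, hr.2, hreB.1, hreB.2]
      · change |h.1 0 1 + 0| < 4 * s
        rw [abs_lt]
        constructor <;> linarith [hIm.1, hIm.2, himB.1, himB.2]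
      · change |h.1 1 0 + 0| < 4 * s
        rw [abs_lt]
        constructor <;> linarith [hIm.1, hIm.2, himB.1, himB.2]
      · change |h.1 1 1 + 1| < 4 * s
        rw [abs_lt]
        constructor <;> linarith [hr.1, hr.2, hreB.1, hreB.2]

end Pool.Agent.VQ
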